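import Mathlib
import Pool.Agent.H.MP_840fa9_an.B

set_option autoImplicit false

namespace Pool.Agent.Results.MP_840fa9_an.Yes

open Set MeasureTheory

/-- `g(t) = exp(i t^2)` -/
noncomputable def g (t : ℝ) : ℂ := Complex.exp (Complex.I * (t : ℂ) ^ 2)

/-- `w` restricted to `J` lies in `UC(J,X) + g UC(J,X)` -/
def InA {X : Type*} [NormedAddCommGroup X] [NormedSpace ℂ X] (J : Set ℝ) (w : ℝ → X) : Prop :=
  ∃ u v : ℝ → X, UniformContinuousOn u J ∧ UniformContinuousOn v J ∧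
    ∀ t ∈ J, w t = u t + g t • v t

theorem result (J : Set ℝ) (hJ : J = univ ∨ ∃ α, J = Ici α ∨ J = Ioi α)
    (X : Type*) [NormedAddCommGroup X] [NormedSpace ℂ X] [CompleteSpace X] (f : ℝ → X)
    (hf : ∀ a ∈ J, ∀ b ∈ J, IntegrableOn f (Icc a b))
    (hA : ∀ a, 0 < a → InA J (fun t => f (t + a) - f t)) (h : ℝ) (hh : 0 < h) :
    InA J (fun t => f t - (1 / h : ℝ) • ∫ s in t..t + h, f s) :=
  Pool.Agent.H.MP_840fa9_an.main J hJ X f hf hA h hh

end Pool.Agent.Results.MP_840fa9_an.Yes
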